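import Pool.Agent.C98.Final

/-!
# Parametrizing elliptic curves by more than two modular units

Let `K` be a field of characteristic zero, `W` an elliptic curve over `K`, `F` any extension field
of `K` and `U` any subgroup of the multiplicative group of `F`. If the function field of `W` is
isomorphic over `K` to the subfield of `F` generated over `K` by some set of elements of `U`, then
it is isomorphic over `K` to the subfield generated over `K` by two elements of `U`.

For `K = ℚ`, `F = ℚ(X₁(N))` and `U` the group of modular units of level `N` this says: an elliptic
curve over `ℚ` which is `k`-parametrized by modular units of level `N` for some `k` is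
`2`-parametrized by modular units of level `N`.

Sketch of the proof. One may take `F = L = K(W)`, `W : y² = x³ + A x + B`, and `H ≤ Lˣ` with
`K(H) = L`. Let `T` be the group of automorphisms of `K̄(W)` over `K̄` acting by scalars on all
elements of `H`. It is abelian. By Kummer theory, if `M` is a subfield of `L` and `H ∩ M` has finite
index in `H` then the embeddings of `L` over `M` come from elements of `T`; with B. H. Neumann's
covering lemma and the finiteness of the number of fields between `K(f)` and `L` one can choose
`f, g ∈ H` with prescribed characters of `T` such that `K(f, g)` is as large as these characters
allow. Every automorphism of `K̄(W)` over `K̄` has the form `P ↦ u P + b`, and there are at most `n²`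
points of order dividing `n`; so either all `T[ℓ]` have at most `ℓ²` elements, and `f, g` can be
chosen with `K(f, g) = L`, or `T` is generated by the translations by the points of order two and
an automorphism `P ↦ -P + b`, and then `f, g` can be chosen with `K(f, g) = K(2P)`, which is again
isomorphic to `L`.
-/

namespace Pool.Agent.Results.MP_c9823e_nt.TwoUnitsSuffice

universe u v

/-- Let `K` be a field of characteristic zero, `W` an elliptic curve over `K`, `F/K` a field
extension and `U` a subgroup of `Fˣ`. If the function field of `W` is `K`-isomorphic to the subfield
of `F` generated by a set `s` of elements of `U`, then it is `K`-isomorphic to the subfield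
generated by two elements of `U`. -/
theorem result {K : Type u} [Field K] [CharZero K] {F : Type v} [Field F] [Algebra K F]
    (W : WeierstrassCurve K) [W.IsElliptic] (U : Subgroup Fˣ) (s : Set Fˣ) (hs : ∀ u ∈ s, u ∈ U)
    (h : Nonempty (IntermediateField.adjoin K ((fun u : Fˣ => (u : F)) '' s) ≃ₐ[K]
      W.toAffine.FunctionField)) :
    ∃ f ∈ U, ∃ g ∈ U, Nonempty (IntermediateField.adjoin K {(f : F), (g : F)} ≃ₐ[K]
      W.toAffine.FunctionField) := by
  obtain ⟨e⟩ := h
  exact Pool.Agent.C98.main U W.toAffine s hs e

end Pool.Agent.Results.MP_c9823e_nt.TwoUnitsSuffice
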